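import Mathlib

/-!
Abstract geometry of a group with a word metric and a finite separating set.
-/

namespace Pool.Agent.Lib.MP_ac3f41_pr

open Filter

/-- word metric `d`, relation `c` (connected outside a set inside the ball of radius `D`),
and three deep points in different components -/
structure Setup (Γ : Type) [Group Γ] where
  d : Γ → Γ → ℕ
  c : Γ → Γ → Prop
  D : ℕ
  a : Fin 3 → Γ
  d_self : ∀ x, d x x = 0
  d_comm : ∀ x y, d x y = d y x
  d_tri : ∀ x y z, d x z ≤ d x y + d y z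
  d_mul : ∀ g x y, d (g * x) (g * y) = d x y
  c_symm : ∀ {x y}, c x y → c y x
  c_trans : ∀ {x y z}, c x y → c y z → c x z
  sep : ∀ {x y}, ¬ c x y → ∃ k, d 1 k ≤ D ∧ d x k + d k y = d x y
  between : ∀ x y s, s ≤ d x y → ∃ z, d x z + s = d x y ∧ d z y = s
  fin : ∀ n, {g | d 1 g ≤ n}.Finite
  a_deep : ∀ i, 2 * D < d 1 (a i)
  a_sep : ∀ i j, i ≠ j → ¬ c (a i) (a j)

namespace Setup

variable {Γ : Type} [Group Γ] (T : Setup Γ)

theorem d_eq (x y : Γ) : T.d x y = T.d 1 (x⁻¹ * y) := by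
  rw [← T.d_mul x⁻¹ x y, inv_mul_cancel]

theorem d_inv (x : Γ) : T.d 1 x⁻¹ = T.d 1 x := by
  rw [← T.d_mul x 1 x⁻¹, mul_inv_cancel, mul_one, T.d_comm]

theorem d_one_mul (x y : Γ) : T.d 1 (x * y) ≤ T.d 1 x + T.d 1 y := by
  have := T.d_tri 1 x (x * y)
  rw [T.d_eq x (x * y), inv_mul_cancel_left] at this
  exact this

theorem sep_len {x y : Γ} (h : ¬ T.c x y) : T.d 1 x + T.d 1 y ≤ T.d x y + 2 * T.D := by
  obtain ⟨k, hk, hk'⟩ := T.sep h
  have h1 := T.d_tri 1 k x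
  have h2 := T.d_tri 1 k y
  have h3 := T.d_comm k x
  omega

theorem c_self {x : Γ} (h : T.D < T.d 1 x) : T.c x x := by
  by_contra hc
  obtain ⟨k, hk, hk'⟩ := T.sep hc
  have h1 := T.d_tri 1 k x
  have := T.d_self x
  omega

/-- ping-pong -/
theorem pp {a g : Γ} (ha : 2 * T.D < T.d 1 a) (h : ¬ T.c g a⁻¹) : T.c a (a * g) := by
  by_contra hc
  obtain ⟨k, hk, hk'⟩ := T.sep hc
  set k' := a⁻¹ * k with hk'def
  have e1 : T.d a k = T.d 1 k' := T.d_eq a k
  have e2 : T.d k (a * g) = T.d k' g := by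
    rw [← T.d_mul a⁻¹ k (a * g), inv_mul_cancel_left]
  have e3 : T.d a (a * g) = T.d 1 g := by rw [T.d_eq, inv_mul_cancel_left]
  have e4 : T.d a⁻¹ k' = T.d 1 k := by
    rw [← T.d_mul a⁻¹ 1 k, mul_one]
  have h1 := T.d_tri 1 k a
  have h1' := T.d_comm k a
  have c1 : T.c k' g := by
    by_contra hc1
    obtain ⟨k2, hk2, hk2'⟩ := T.sep hc1
    have := T.d_tri 1 k2 g
    omega
  have c2 : T.c a⁻¹ k' := by
    by_contra hc2
    obtain ⟨k3, hk3, hk3'⟩ := T.sep hc2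
    have := T.d_tri 1 k3 a⁻¹
    have := T.d_comm k3 a⁻¹
    have := T.d_inv a
    omega
  exact h (T.c_symm (T.c_trans c2 c1))

theorem pp_len {a g : Γ} (h : ¬ T.c g a⁻¹) :
    T.d 1 a + T.d 1 g ≤ T.d 1 (a * g) + 2 * T.D := by
  have := T.sep_len h
  rw [T.d_comm g a⁻¹, T.d_eq a⁻¹ g, inv_inv, T.d_inv] at this
  omega

/-- the ball as a finset -/
noncomputable def B (n : ℕ) : Finset Γ := (T.fin n).toFinset

theorem mem_B {n : ℕ} {g : Γ} : g ∈ T.B n ↔ T.d 1 g ≤ n := by simp [B]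

theorem B_mono {m n : ℕ} (h : m ≤ n) : T.B m ⊆ T.B n := fun _ hg =>
  T.mem_B.2 ((T.mem_B.1 hg).trans h)

theorem B_pos (n : ℕ) : 0 < (T.B n).card :=
  Finset.card_pos.2 ⟨1, T.mem_B.2 (by rw [T.d_self]; omega)⟩

theorem B_add (m n : ℕ) : (T.B (m + n)).card ≤ (T.B m).card * (T.B n).card := by
  classical
  rw [← Finset.card_product]
  refine le_trans (Finset.card_le_card ?_)
    (Finset.card_image_le (f := fun p : Γ × Γ => p.1 * p.2))
  intro u hu
  rw [T.mem_B] at hu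
  obtain ⟨z, hz, hz'⟩ := T.between 1 u (min n (T.d 1 u)) (min_le_right _ _)
  refine Finset.mem_image.2 ⟨(z, z⁻¹ * u), Finset.mem_product.2 ⟨T.mem_B.2 ?_, T.mem_B.2 ?_⟩,
    by simp⟩
  · show T.d 1 z ≤ m
    omega
  · show T.d 1 (z⁻¹ * u) ≤ n
    rw [← T.d_eq]; omega

theorem avoid_two (b : Fin 3 → Γ) (hb : ∀ i j, i ≠ j → ¬ T.c (b i) (b j)) (x y : Γ) :
    ∃ i, ¬ T.c x (b i) ∧ ¬ T.c y (b i) := by
  by_contra hc
  push Not at hc
  have key : ∀ (z : Γ) (i j : Fin 3), i ≠ j → T.c z (b i) → T.c z (b j) → False :=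
    fun z i j hij h1 h2 => hb i j hij (T.c_trans (T.c_symm h1) h2)
  by_cases h0 : T.c x (b 0)
  · exact key y 1 2 (by decide) (hc 1 fun h => key x 0 1 (by decide) h0 h)
      (hc 2 fun h => key x 0 2 (by decide) h0 h)
  · by_cases h1 : T.c x (b 1)
    · exact key y 0 2 (by decide) (hc 0 h0) (hc 2 fun h => key x 1 2 (by decide) h1 h)
    · exact key y 0 1 (by decide) (hc 0 h0) (hc 1 h1)

open Classical in
/-- points of the ball not connected to `m` -/
noncomputable def Nm (m : Γ) (n : ℕ) : Finset Γ := (T.B n).filter fun g => ¬ T.c g m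

theorem mem_Nm {m : Γ} {n : ℕ} {g : Γ} : g ∈ T.Nm m n ↔ T.d 1 g ≤ n ∧ ¬ T.c g m := by
  simp [Nm, mem_B]

theorem Nm_step {m a b : Γ} {t n : ℕ} (ha : 2 * T.D < T.d 1 a) (hb : 2 * T.D < T.d 1 b)
    (hat : T.d 1 a ≤ t) (hbt : T.d 1 b ≤ t) (hab : ¬ T.c a b) (ham : ¬ T.c m a)
    (hbm : ¬ T.c m b) :
    (T.Nm a⁻¹ n).card + (T.Nm b⁻¹ n).card ≤ (T.Nm m (t + n)).card := by
  classical
  rw [← Finset.card_image_of_injective (T.Nm a⁻¹ n) (mul_right_injective a),
    ← Finset.card_image_of_injective (T.Nm b⁻¹ n) (mul_right_injective b),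
    ← Finset.card_union_of_disjoint]
  · apply Finset.card_le_card
    have key : ∀ a, 2 * T.D < T.d 1 a → T.d 1 a ≤ t → ¬ T.c m a →
        (T.Nm a⁻¹ n).image (fun x => a * x) ⊆ T.Nm m (t + n) := by
      intro a ha hat ham u hu
      obtain ⟨g, hg, rfl⟩ := Finset.mem_image.1 hu
      rw [T.mem_Nm] at hg ⊢
      have := T.d_one_mul a g
      exact ⟨by omega, fun hc => ham (T.c_symm (T.c_trans (T.pp ha hg.2) hc))⟩
    exact Finset.union_subset (key a ha hat ham) (key b hb hbt hbm)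
  · rw [Finset.disjoint_left]
    intro u hu hu'
    obtain ⟨g, hg, rfl⟩ := Finset.mem_image.1 hu
    obtain ⟨g', hg', he⟩ := Finset.mem_image.1 hu'
    rw [T.mem_Nm] at hg hg'
    have h1 := T.pp ha hg.2
    have h2 := T.pp hb hg'.2
    rw [he] at h2
    exact hab (T.c_trans h1 (T.c_symm h2))

theorem Nm_exp : ∃ t, ∀ j m, 2 ^ j ≤ (T.Nm m (t * (j + 1))).card := by
  let t := T.d 1 (T.a 0) + T.d 1 (T.a 1) + T.d 1 (T.a 2)
  have ht : ∀ i, T.d 1 (T.a i) ≤ t := by
    intro i; fin_cases i <;> simp only [t] <;> simp <;> omega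
  refine ⟨t, fun j => ?_⟩
  induction j with
  | zero =>
    intro m
    obtain ⟨i, hi, -⟩ := T.avoid_two T.a T.a_sep m m
    exact Finset.card_pos.2 ⟨T.a i, T.mem_Nm.2 ⟨by simpa using ht i, fun h => hi (T.c_symm h)⟩⟩
  | succ j ih =>
    intro m
    obtain ⟨i, hi, -⟩ := T.avoid_two T.a T.a_sep m m
    obtain ⟨i', hi', hi''⟩ := T.avoid_two T.a T.a_sep m (T.a i)
    have := T.Nm_step (n := t * (j + 1)) (T.a_deep i) (T.a_deep i') (ht i) (ht i') hi'' hi hi'
    have h1 := ih (T.a i)⁻¹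
    have h2 := ih (T.a i')⁻¹
    rw [show t * (j + 1 + 1) = t + t * (j + 1) by ring, pow_succ]
    omega

theorem not_star (m : Γ) : ∃ g, 2 * T.D < T.d 1 g ∧ ¬ T.c g m ∧ ¬ T.c g⁻¹ m := by
  classical
  by_contra hc
  push Not at hc
  set Q := (T.B (2 * T.D)).card
  have close : ∀ g g', ¬ T.c g m → ¬ T.c g' m → T.d 1 g = T.d 1 g' →
      T.d 1 (g * g'⁻¹) ≤ 2 * T.D := by
    have aux : ∀ g g', ¬ T.c g m → T.d 1 g = T.d 1 g' → T.c (g * g'⁻¹) m →
        T.d 1 (g * g'⁻¹) ≤ 2 * T.D := by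
      intro g g' hg he h
      have := T.sep_len (x := g) (y := g * g'⁻¹) fun h' => hg (T.c_trans h' h)
      rw [T.d_eq g, inv_mul_cancel_left, T.d_inv] at this
      omega
    intro g g' hg hg' he
    by_contra hlt
    by_cases h : T.c (g * g'⁻¹) m
    · exact hlt (aux g g' hg he h)
    · have h2 := hc _ (by omega) h
      rw [mul_inv_rev, inv_inv] at h2
      have h3 := aux g' g hg' he.symm h2
      rw [← T.d_inv, mul_inv_rev, inv_inv] at h3
      exact hlt h3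
  have lin : ∀ n, (T.Nm m n).card ≤ (n + 1) * Q := by
    intro n
    have := Finset.card_le_mul_card_image_of_maps_to (s := T.Nm m n) (t := Finset.range (n + 1))
      (f := fun g => T.d 1 g)
      (fun g hg => Finset.mem_range.2 (Nat.lt_succ_of_le (T.mem_Nm.1 hg).1)) Q (by
        intro k _
        rcases Finset.eq_empty_or_nonempty ((T.Nm m n).filter fun g => T.d 1 g = k) with h | h
        · rw [h]; simp
        · obtain ⟨g0, hg0⟩ := h
          refine Finset.card_le_card_of_injOn (fun g => g * g0⁻¹) ?_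
            (mul_left_injective _).injOn
          intro g hg
          rw [Finset.mem_coe, Finset.mem_filter] at hg
          rw [Finset.mem_filter] at hg0
          exact T.mem_B.2 (close g g0 (T.mem_Nm.1 hg.1).2 (T.mem_Nm.1 hg0.1).2
            (hg.2.trans hg0.2.symm)))
    rw [Finset.card_range, mul_comm] at this
    exact this
  obtain ⟨t, ht⟩ := T.Nm_exp
  have hb : ∀ j, 2 ^ j ≤ (t + 1) * Q * (j + 1) := by
    intro j
    refine (ht j m).trans ((lin _).trans ?_)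
    have : t * (j + 1) + 1 ≤ (t + 1) * (j + 1) := by nlinarith
    calc (t * (j + 1) + 1) * Q ≤ (t + 1) * (j + 1) * Q := Nat.mul_le_mul_right _ this
      _ = _ := by ring
  set C := (t + 1) * Q
  have h1 := hb (2 * C + 2)
  have h2 : C + 1 < 2 ^ (C + 1) := Nat.lt_two_pow_self
  have h3 : 2 ^ (2 * C + 2) = 2 ^ (C + 1) * 2 ^ (C + 1) := by ring
  have h4 : 2 * C + 2 ≤ 2 ^ (C + 1) := by
    have : C < 2 ^ C := Nat.lt_two_pow_self
    rw [pow_succ]; omega
  nlinarith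

theorem exists_hyp (i : Fin 3) :
    ∃ h, 2 * T.D < T.d 1 h ∧ T.c h (T.a i) ∧ T.c h⁻¹ (T.a i) := by
  by_contra hc
  push Not at hc
  have ha := T.a_deep i
  have claim : ∀ b, 2 * T.D < T.d 1 b → T.c b (T.a i) → T.c b⁻¹ (T.a i)⁻¹ := by
    intro b hb hbc
    by_contra h
    have h1 := T.pp ha h
    have h2 := T.pp_len h
    have h3 := T.pp (g := (T.a i)⁻¹) hb fun h' => h (T.c_symm h')
    rw [T.d_inv] at h2
    refine hc (T.a i * b⁻¹) (by omega) (T.c_symm h1) ?_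
    rw [mul_inv_rev, inv_inv]
    exact T.c_trans (T.c_symm h3) hbc
  obtain ⟨g, hg, hg1, hg2⟩ := T.not_star (T.a i)⁻¹
  have h1 := T.pp ha hg1
  have h2 := T.pp_len hg1
  have h3 := claim _ (by omega) (T.c_symm h1)
  have h4 := T.pp (a := g⁻¹) (g := (T.a i)⁻¹) (by rwa [T.d_inv])
    (by rw [inv_inv]; exact fun h => hg1 (T.c_symm h))
  rw [mul_inv_rev] at h3
  exact hg2 (T.c_trans h4 h3)

theorem exists_hyps : ∃ (h : Fin 3 → Γ) (L : ℕ), (∀ i, 2 * T.D < T.d 1 (h i)) ∧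
    (∀ i, T.d 1 (h i) ≤ L) ∧ (∀ i, T.c (h i) (h i)⁻¹) ∧ ∀ i j, i ≠ j → ¬ T.c (h i) (h j) := by
  choose h h1 h2 h3 using T.exists_hyp
  refine ⟨h, T.d 1 (h 0) + T.d 1 (h 1) + T.d 1 (h 2), h1, ?_,
    fun i => T.c_trans (h2 i) (T.c_symm (h3 i)),
    fun i j hij hc => T.a_sep i j hij (T.c_trans (T.c_symm (h2 i)) (T.c_trans hc (h2 j)))⟩
  intro i; fin_cases i <;> simp <;> omega

theorem B_double : ∃ L, ∀ n, 2 * (T.B n).card ≤ (T.B (L + n)).card := by
  classical
  obtain ⟨h, L, h1, h2, h3, h4⟩ := T.exists_hyps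
  refine ⟨L, fun n => ?_⟩
  have hdis : ∀ i ∈ (Finset.univ : Finset (Fin 3)), ∀ j ∈ (Finset.univ : Finset (Fin 3)), i ≠ j →
      Disjoint ((T.Nm (h i)⁻¹ n).image fun x => h i * x)
        ((T.Nm (h j)⁻¹ n).image fun x => h j * x) := by
    intro i _ j _ hij
    rw [Finset.disjoint_left]
    intro u hu hu'
    obtain ⟨g, hg, rfl⟩ := Finset.mem_image.1 hu
    obtain ⟨g', hg', he⟩ := Finset.mem_image.1 hu'
    rw [T.mem_Nm] at hg hg'
    have e1 := T.pp (h1 i) hg.2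
    have e2 := T.pp (h1 j) hg'.2
    rw [he] at e2
    exact h4 i j hij (T.c_trans e1 (T.c_symm e2))
  have hsub : Finset.univ.biUnion (fun i => (T.Nm (h i)⁻¹ n).image fun x => h i * x) ⊆
      T.B (L + n) := by
    intro u hu
    obtain ⟨i, -, hu⟩ := Finset.mem_biUnion.1 hu
    obtain ⟨g, hg, rfl⟩ := Finset.mem_image.1 hu
    rw [T.mem_Nm] at hg
    have := T.d_one_mul (h i) g
    have := h2 i
    exact T.mem_B.2 (by omega)
  have hc := Finset.card_le_card hsub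
  rw [Finset.card_biUnion hdis, Fin.sum_univ_three] at hc
  simp only [Finset.card_image_of_injective _ (mul_right_injective _)] at hc
  have e : ∀ i, (T.Nm (h i)⁻¹ n).card + ((T.B n).filter fun g => T.c g (h i)⁻¹).card =
      (T.B n).card := fun i => by
    rw [add_comm]
    exact Finset.card_filter_add_card_filter_not _
  have hdis' : ∀ i ∈ (Finset.univ : Finset (Fin 3)), ∀ j ∈ (Finset.univ : Finset (Fin 3)), i ≠ j →
      Disjoint ((T.B n).filter fun g => T.c g (h i)⁻¹)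
        ((T.B n).filter fun g => T.c g (h j)⁻¹) := by
    intro i _ j _ hij
    rw [Finset.disjoint_left]
    intro u hu hu'
    rw [Finset.mem_filter] at hu hu'
    exact h4 i j hij (T.c_trans (h3 i) (T.c_trans (T.c_symm hu.2)
      (T.c_trans hu'.2 (T.c_symm (h3 j)))))
  have hsub' : Finset.univ.biUnion (fun i => (T.B n).filter fun g => T.c g (h i)⁻¹) ⊆ T.B n := by
    intro u hu
    obtain ⟨i, -, hu⟩ := Finset.mem_biUnion.1 hu
    exact (Finset.mem_filter.1 hu).1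
  have hc' := Finset.card_le_card hsub'
  rw [Finset.card_biUnion hdis', Fin.sum_univ_three] at hc'
  have e0 := e 0
  have e1 := e 1
  have e2 := e 2
  omega

theorem B_pow : ∃ L, ∀ j n, 2 ^ j * (T.B n).card ≤ (T.B (L * j + n)).card := by
  obtain ⟨L, hL⟩ := T.B_double
  refine ⟨L, fun j n => ?_⟩
  induction j with
  | zero => simp
  | succ j ih =>
    have := hL (L * j + n)
    rw [show L * (j + 1) + n = L + (L * j + n) by ring, pow_succ]
    nlinarith

end Setup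

end Pool.Agent.Lib.MP_ac3f41_pr
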