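import Mathlib
import Pool.Agent.Lib.MP_ac3f41_pr.Geom

/-!
The insertion argument: most points of a ball have a cut at bounded distance.
-/

namespace Pool.Agent.Lib.MP_ac3f41_pr

open Filter

namespace Setup

variable {Γ : Type} [Group Γ] (T : Setup Γ)

/-- the translate of the separating set by `x` separates `1` from `v` -/
def Cut (x v : Γ) : Prop := ¬ T.c x⁻¹ (x⁻¹ * v)

theorem sepAt {x p q : Γ} (h : ¬ T.c (x⁻¹ * p) (x⁻¹ * q)) :
    ∃ k, T.d x k ≤ T.D ∧ T.d p k + T.d k q = T.d p q := by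
  obtain ⟨k, hk, hk'⟩ := T.sep h
  refine ⟨x * k, by rwa [T.d_eq, inv_mul_cancel_left], ?_⟩
  rw [← T.d_mul x⁻¹ p, ← T.d_mul x⁻¹ (x * k), ← T.d_mul x⁻¹ p q, inv_mul_cancel_left]
  exact hk'

theorem sepAt_one {x q : Γ} (h : ¬ T.c x⁻¹ (x⁻¹ * q)) :
    ∃ k, T.d x k ≤ T.D ∧ T.d 1 k + T.d k q = T.d 1 q :=
  T.sepAt (by rwa [mul_one])

theorem cut_close {x1 x2 u : Γ} {s L : ℕ} (h1 : T.Cut x1 u) (h2 : T.Cut x2 u)
    (a1 : s ≤ T.d x1 u + L) (b1 : T.d x1 u ≤ s + L) (a2 : s ≤ T.d x2 u + L)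
    (b2 : T.d x2 u ≤ s + L) : T.d x1 x2 ≤ 2 * L + 4 * T.D := by
  obtain ⟨q1, hq1, hq1'⟩ := T.sepAt_one h1
  have t1 := T.d_tri x1 q1 u
  have t1' := T.d_tri q1 x1 u
  have c1 := T.d_comm q1 x1
  by_cases hc : T.c x2⁻¹ (x2⁻¹ * q1)
  · have : ¬ T.c (x2⁻¹ * q1) (x2⁻¹ * u) := fun h => h2 (T.c_trans hc h)
    obtain ⟨q2, hq2, hq2'⟩ := T.sepAt this
    have t2 := T.d_tri x2 q2 u
    have t3 := T.d_tri x1 q1 x2
    have t4 := T.d_tri q1 q2 x2
    have c2 := T.d_comm q2 x2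
    omega
  · obtain ⟨q2, hq2, hq2'⟩ := T.sepAt_one hc
    have t2 := T.d_tri q2 x2 u
    have t2' := T.d_tri 1 q2 u
    have t3 := T.d_tri x1 q1 x2
    have t4 := T.d_tri q1 q2 x2
    have c2 := T.d_comm q2 x2
    have c3 := T.d_comm q2 q1
    omega

theorem ins_cut {x h v : Γ} (hh : 2 * T.D < T.d 1 h) (hc : T.c h h⁻¹) (h1 : ¬ T.c x⁻¹ h)
    (h2 : ¬ T.c (x⁻¹ * v) h) : T.Cut x (x * h * (x⁻¹ * v)) := by
  have := T.pp (g := x⁻¹ * v) hh fun h' => h2 (T.c_trans h' (T.c_symm hc))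
  intro h'
  rw [mul_assoc x h, inv_mul_cancel_left] at h'
  exact h1 (T.c_trans h' (T.c_symm this))

theorem ins_d (x h v : Γ) : T.d x (x * h * (x⁻¹ * v)) ≤ T.d x v + T.d 1 h ∧
    T.d x v ≤ T.d x (x * h * (x⁻¹ * v)) + T.d 1 h := by
  rw [T.d_eq x (x * h * _), mul_assoc x h, inv_mul_cancel_left, T.d_eq x v]
  have h1 := T.d_one_mul h (x⁻¹ * v)
  have h2 := T.d_one_mul h⁻¹ (h * (x⁻¹ * v))
  rw [inv_mul_cancel_left, T.d_inv] at h2
  omega

theorem ins_transfer {x1 x2 h v : Γ} {s1 s2 L : ℕ} (hL : T.d 1 h ≤ L)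
    (hx : T.d 1 x2 + s2 = T.d 1 v) (hx' : T.d x2 v = s2)
    (hc2 : T.Cut x2 (x2 * h * (x2⁻¹ * v))) (hc1 : T.Cut x1 (x2 * h * (x2⁻¹ * v)))
    (hd : T.d x1 (x2 * h * (x2⁻¹ * v)) ≤ s1 + L) (hs : s1 + 3 * L + 3 * T.D < s2) :
    ∃ x', T.Cut x' v ∧ T.d x' v = T.d x1 (x2 * h * (x2⁻¹ * v)) := by
  have hi := (T.ins_d x2 h v).2
  set u := x2 * h * (x2⁻¹ * v) with hu
  have hlen : T.d 1 x2 + T.d x2 u ≤ T.d 1 u + 2 * T.D := by
    have := T.sep_len hc2
    rw [T.d_inv, ← T.d_eq, T.d_eq x2⁻¹, inv_inv, mul_inv_cancel_left] at this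
    exact this
  have c1 : T.c x1⁻¹ (x1⁻¹ * x2) := by
    by_contra hc
    obtain ⟨k, hk, hk'⟩ := T.sepAt_one hc
    have := T.d_tri 1 k u
    have := T.d_tri k x1 u
    have := T.d_comm k x1
    omega
  have c2 : T.c (x1⁻¹ * x2) (x1⁻¹ * (x2 * h)) := by
    by_contra hc
    obtain ⟨k, hk, hk'⟩ := T.sepAt hc
    have := T.d_tri x2 k u
    have := T.d_tri k x1 u
    have := T.d_comm k x1
    have : T.d x2 (x2 * h) = T.d 1 h := by rw [T.d_eq, inv_mul_cancel_left]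
    omega
  have c3 : ¬ T.c (x1⁻¹ * (x2 * h)) (x1⁻¹ * u) := fun h' =>
    hc1 (T.c_trans c1 (T.c_trans c2 h'))
  set x' := x2 * (x2 * h)⁻¹ * x1 with hx'def
  have e1 : x'⁻¹ * x2 = x1⁻¹ * (x2 * h) := by rw [hx'def]; group
  have e2 : x'⁻¹ * v = x1⁻¹ * u := by rw [hx'def, hu]; group
  have e3 : T.d x' v = T.d x1 u := by rw [T.d_eq x', T.d_eq x1, e2]
  refine ⟨x', ?_, e3⟩
  have c4 : T.c x'⁻¹ (x'⁻¹ * x2) := by
    by_contra hc
    obtain ⟨k, hk, hk'⟩ := T.sepAt_one hc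
    have := T.d_tri 1 k v
    have := T.d_tri k x' v
    have := T.d_comm k x'
    omega
  intro h'
  apply c3
  rw [← e1, ← e2]
  exact T.c_trans (T.c_symm c4) h'

open Classical in
theorem bad_count : ∃ C : ℕ, ∀ r J : ℕ, ∃ R : ℕ, ∀ n,
    J * ((T.B n).filter fun v => R ≤ T.d 1 v ∧
      ∀ x, T.Cut x v → ¬ (r ≤ T.d x v ∧ T.d x v ≤ R)).card ≤ C * (T.B n).card := by
  obtain ⟨h, L, h1, h2, h3, h4⟩ := T.exists_hyps
  refine ⟨(T.B (2 * L + 4 * T.D)).card * 3 * (T.B L).card, fun r J => ?_⟩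
  set Δ := 3 * L + 3 * T.D + 1 with hΔ
  refine ⟨r + 2 * L + J * Δ, fun n => ?_⟩
  set R := r + 2 * L + J * Δ with hR
  set Bad := (T.B n).filter fun v => R ≤ T.d 1 v ∧
      ∀ x, T.Cut x v → ¬ (r ≤ T.d x v ∧ T.d x v ≤ R) with hBad
  have hex : ∀ p : Γ × ℕ, ∃ q : Γ × Fin 3, r + L + p.2 * Δ ≤ T.d 1 p.1 →
      T.d 1 q.1 + (r + L + p.2 * Δ) = T.d 1 p.1 ∧ T.d q.1 p.1 = r + L + p.2 * Δ ∧
      T.Cut q.1 (q.1 * h q.2 * (q.1⁻¹ * p.1)) := by
    intro p
    by_cases hp : r + L + p.2 * Δ ≤ T.d 1 p.1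
    · obtain ⟨x, hx, hx'⟩ := T.between 1 p.1 _ hp
      obtain ⟨i, hi, hi'⟩ := T.avoid_two h h4 x⁻¹ (x⁻¹ * p.1)
      exact ⟨(x, i), fun _ => ⟨hx, hx', T.ins_cut (h1 i) (h3 i) hi hi'⟩⟩
    · exact ⟨(1, 0), fun h => absurd h hp⟩
  choose q hq using hex
  let f : Γ × ℕ → Γ := fun p => (q p).1 * h (q p).2 * ((q p).1⁻¹ * p.1)
  have hq' : ∀ p ∈ Bad ×ˢ Finset.range J, T.d 1 (q p).1 + (r + L + p.2 * Δ) = T.d 1 p.1 ∧
      T.d (q p).1 p.1 = r + L + p.2 * Δ ∧ T.Cut (q p).1 (f p) := by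
    intro p hp
    rw [Finset.mem_product, Finset.mem_range, hBad, Finset.mem_filter] at hp
    apply hq
    have : p.2 * Δ ≤ J * Δ := Nat.mul_le_mul_right _ hp.2.le
    have := hp.1.2.1
    omega
  have hlt : ∀ p ∈ Bad ×ˢ Finset.range J, ∀ p' ∈ Bad ×ˢ Finset.range J, f p = f p' →
      ¬ p.2 < p'.2 := by
    intro p hp p' hp' he hlt
    obtain ⟨a1, a2, a3⟩ := hq' p hp
    obtain ⟨b1, b2, b3⟩ := hq' p' hp'
    have hi := T.ins_d (q p).1 (h (q p).2) p.1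
    have hL := h2 (q p).2
    change T.d (q p).1 (f p) ≤ _ ∧ _ ≤ T.d (q p).1 (f p) + _ at hi
    rw [he] at a3 hi
    have hm : (p.2 + 1) * Δ ≤ p'.2 * Δ := Nat.mul_le_mul_right _ hlt
    rw [add_mul, one_mul] at hm
    obtain ⟨x', hx1, hx2⟩ := T.ins_transfer (s1 := r + L + p.2 * Δ) (h2 (q p').2) b1 b2 b3 a3
      (by change T.d _ (f p') ≤ _; omega) (by omega)
    change _ = T.d _ (f p') at hx2
    rw [Finset.mem_product, Finset.mem_range, hBad, Finset.mem_filter] at hp'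
    have hm' : p'.2 * Δ ≤ J * Δ := Nat.mul_le_mul_right _ hp'.2.le
    exact hp'.1.2.2 x' hx1 ⟨by omega, by omega⟩
  have main := Finset.card_le_mul_card_image_of_maps_to (s := Bad ×ˢ Finset.range J)
    (t := T.B (n + L)) (f := f) (by
      intro p hp
      obtain ⟨a1, a2, a3⟩ := hq' p hp
      have hi := (T.ins_d (q p).1 (h (q p).2) p.1).1
      have hL := h2 (q p).2
      change T.d (q p).1 (f p) ≤ _ at hi
      have := T.d_tri 1 (q p).1 (f p)
      rw [Finset.mem_product, hBad, Finset.mem_filter, T.mem_B] at hp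
      have := hp.1.1
      exact T.mem_B.2 (by omega)) ((T.B (2 * L + 4 * T.D)).card * 3) (by
      intro u _
      rcases Finset.eq_empty_or_nonempty ((Bad ×ˢ Finset.range J).filter fun p => f p = u)
        with hE | ⟨p0, hp0⟩
      · rw [hE]; simp
      · rw [Finset.mem_filter] at hp0
        have hcard : (T.B (2 * L + 4 * T.D) ×ˢ (Finset.univ : Finset (Fin 3))).card =
            (T.B (2 * L + 4 * T.D)).card * 3 := by simp
        rw [← hcard]
        have hj : ∀ p ∈ (Bad ×ˢ Finset.range J).filter fun p => f p = u, p.2 = p0.2 := by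
          intro p hp
          rw [Finset.mem_filter] at hp
          have e := hp.2.trans hp0.2.symm
          have := hlt p hp.1 p0 hp0.1 e
          have := hlt p0 hp0.1 p hp.1 e.symm
          omega
        refine Finset.card_le_card_of_injOn (fun p => ((q p0).1⁻¹ * (q p).1, (q p).2)) ?_ ?_
        · intro p hp
          have hj' := hj p hp
          rw [Finset.mem_coe, Finset.mem_filter] at hp
          obtain ⟨a1, a2, a3⟩ := hq' p hp.1
          obtain ⟨b1, b2, b3⟩ := hq' p0 hp0.1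
          have hi := T.ins_d (q p).1 (h (q p).2) p.1
          have hi0 := T.ins_d (q p0).1 (h (q p0).2) p0.1
          have hL := h2 (q p).2
          have hL0 := h2 (q p0).2
          change T.d (q p).1 (f p) ≤ _ ∧ _ ≤ T.d (q p).1 (f p) + _ at hi
          change T.d (q p0).1 (f p0) ≤ _ ∧ _ ≤ T.d (q p0).1 (f p0) + _ at hi0
          rw [hp.2] at a3 hi
          rw [hp0.2] at b3 hi0
          rw [hj'] at a2
          simp only [Finset.coe_product, Set.mem_prod, Finset.mem_coe, Finset.mem_univ, and_true]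
          rw [T.mem_B, ← T.d_eq]
          exact T.cut_close (s := r + L + p0.2 * Δ) b3 a3 (by omega) (by omega) (by omega)
            (by omega)
        · intro p hp p' hp' he
          have e0 := (hj p hp).trans (hj p' hp').symm
          rw [Finset.mem_coe, Finset.mem_filter] at hp hp'
          simp only [Prod.mk.injEq, mul_right_inj] at he
          have e := hp.2.trans hp'.2.symm
          simp only [f, he.1, he.2, mul_right_inj] at e
          exact Prod.ext e e0)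
  rw [Finset.card_product, Finset.card_range] at main
  have := T.B_add n L
  calc J * Bad.card = Bad.card * J := mul_comm _ _
    _ ≤ _ := main
    _ ≤ (T.B (2 * L + 4 * T.D)).card * 3 * ((T.B n).card * (T.B L).card) :=
        Nat.mul_le_mul_left _ this
    _ = _ := by ring

open Classical in
theorem most_cut (r : ℕ) (ε : ℝ) (hε : 0 < ε) : ∃ R : ℕ, ∀ᶠ n in atTop,
    (((T.B n).filter fun v => ¬ (n ≤ T.d 1 v + R ∧
      ∃ x, T.Cut x v ∧ r ≤ T.d x v ∧ T.d x v ≤ R)).card : ℝ) ≤ ε * (T.B n).card := by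
  obtain ⟨C, hC⟩ := T.bad_count
  obtain ⟨L, hL⟩ := T.B_pow
  obtain ⟨J, hJ⟩ := exists_nat_gt ((2 * C + 2) / ε)
  obtain ⟨R, hR⟩ := hC r J
  refine ⟨R + L * J, ?_⟩
  filter_upwards [eventually_ge_atTop (R + L * J)] with n hn
  have h1 := hR n
  have h2 := hL J (n - L * J)
  rw [show L * J + (n - L * J) = n by omega] at h2
  set Bad := (T.B n).filter fun v => R ≤ T.d 1 v ∧
      ∀ x, T.Cut x v → ¬ (r ≤ T.d x v ∧ T.d x v ≤ R) with hBad
  have hsub : ((T.B n).filter fun v => ¬ (n ≤ T.d 1 v + (R + L * J) ∧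
      ∃ x, T.Cut x v ∧ r ≤ T.d x v ∧ T.d x v ≤ R + L * J)) ⊆ Bad ∪ T.B (n - L * J) := by
    intro v hv
    rw [Finset.mem_filter] at hv
    rw [Finset.mem_union, T.mem_B]
    by_contra hc
    push Not at hc
    apply hv.2
    refine ⟨by omega, ?_⟩
    have := hc.1
    rw [hBad, Finset.mem_filter] at this
    push Not at this
    obtain ⟨x, hx1, hx2, hx3⟩ := this hv.1 (by omega)
    exact ⟨x, hx1, hx2, by omega⟩
  have h3 := (Finset.card_le_card hsub).trans (Finset.card_union_le _ _)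
  have hJ2 : J ≤ 2 ^ J := Nat.lt_two_pow_self.le
  have h4 : J * (T.B (n - L * J)).card ≤ (T.B n).card := (Nat.mul_le_mul_right _ hJ2).trans h2
  have hJ0 : (0 : ℝ) < J := lt_of_le_of_lt (by positivity) hJ
  rw [div_lt_iff₀ hε] at hJ
  have h1' : (J : ℝ) * Bad.card ≤ C * (T.B n).card := by exact_mod_cast h1
  have h4' : (J : ℝ) * (T.B (n - L * J)).card ≤ (T.B n).card := by exact_mod_cast h4
  refine le_trans (Nat.cast_le.2 h3) ?_
  push_cast
  have hB : (0 : ℝ) ≤ (T.B n).card := by positivity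
  have hC0 : (0 : ℝ) ≤ C := by positivity
  refine le_of_mul_le_mul_left ?_ hJ0
  nlinarith

end Setup

end Pool.Agent.Lib.MP_ac3f41_pr
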