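import Mathlib

/-!
Definitions: rooted graphs, balls, local (Benjamini-Schramm) limits, Bernoulli bond percolation.
-/

namespace Pool.Agent.Lib.MP_ac3f41_pr

open MeasureTheory ProbabilityTheory Filter Topology

/-- A rooted graph: a vertex type, a simple graph on it and a root vertex. -/
structure RGraph where
  /-- vertices -/
  V : Type
  /-- the graph -/
  G : SimpleGraph V
  /-- the root -/
  root : V

/-- The vertices at graph distance at most `r` from `o`. -/
def cball {V : Type} (G : SimpleGraph V) (o : V) (r : ℕ) : Set V := {v | G.edist o v ≤ r}

theorem self_mem_cball {V : Type} (G : SimpleGraph V) (o : V) (r : ℕ) : o ∈ cball G o r := by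
  simp [cball]

/-- The ball of radius `r` about the root, as a rooted graph (induced subgraph). -/
def RGraph.ball (X : RGraph) (r : ℕ) : RGraph :=
  ⟨cball X.G X.root r, X.G.induce (cball X.G X.root r), ⟨X.root, self_mem_cball _ _ _⟩⟩

/-- Rooted isomorphism. -/
def RGraph.Iso (X Y : RGraph) : Prop := ∃ e : X.G ≃g Y.G, e X.root = Y.root

/-- The random rooted graph `H` on `(Ω, P)` is the local (Benjamini-Schramm) limit of the finite
graphs `G k` rooted at a uniformly random vertex: for every radius `r` and every finite rooted
graph `F`, the event that the `r`-ball of `H` is isomorphic to `F` is measurable and its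
probability is the limit of the fraction of vertices `v` of `G k` whose `r`-ball is isomorphic
to `F`. -/
def IsLocalLimit {Ω : Type*} [MeasurableSpace Ω] (P : Measure Ω) (H : Ω → RGraph)
    (V : ℕ → Type) (G : ∀ k, SimpleGraph (V k)) : Prop :=
  ∀ (r : ℕ) (F : RGraph), Finite F.V →
    MeasurableSet {ω | ((H ω).ball r).Iso F} ∧
    Tendsto (fun k => (Nat.card {v : V k // ((RGraph.mk (V k) (G k) v).ball r).Iso F} : ℝ) /
        (Nat.card (V k) : ℝ)) atTop (𝓝 (P.real {ω | ((H ω).ball r).Iso F}))

/-- The event that the set `ω` of open edges contains an infinite open cluster. -/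
def InfCluster (V : Type) : Set (Set (Sym2 V)) :=
  {ω | ∃ v : V, {w | (SimpleGraph.fromEdgeSet ω).Reachable v w}.Infinite}

/-- The critical probability of Bernoulli bond percolation on `G`: the infimum in `[0,1]` of the
`p` such that an infinite open cluster exists with positive probability, each edge of `G` being
kept independently with probability `p`. -/
noncomputable def pc {V : Type} (G : SimpleGraph V) : unitInterval :=
  sInf {p : unitInterval | 0 < setBernoulli G.edgeSet p (InfCluster V)}

/-- Deleting some finite vertex set leaves at least three infinite connected components. -/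
def InfinitelyManyEnds {V : Type} (G : SimpleGraph V) : Prop :=
  ∃ K : Finset V, 3 ≤ {C : G.ComponentCompl (K : Set V) | C.supp.Infinite}.encard

end Pool.Agent.Lib.MP_ac3f41_pr
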