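import Mathlib
import Pool.Agent.Lib.MP_ac3f41_pr.Defs

/-!
Infinitely many bounded cutsets force `pc = 1`.
-/

namespace Pool.Agent.Lib.MP_ac3f41_pr

open MeasureTheory ProbabilityTheory Filter Topology unitInterval
open scoped ENNReal

/-- ordered boundary edges of a vertex set -/
def bdry {V : Type} (G : SimpleGraph V) (W : Set V) : Set (V × V) :=
  {p | p.1 ∈ W ∧ p.2 ∉ W ∧ G.Adj p.1 p.2}

/-- a finite set between the balls of radii `r` and `R` with at most `M` boundary edges -/
def Good (M r R : ℕ) (X : RGraph) : Prop :=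
  ∃ W : Set X.V, cball X.G X.root r ⊆ W ∧ W ⊆ cball X.G X.root R ∧ W.Finite ∧
    (bdry X.G W).encard ≤ M

theorem cball_mono {V : Type} (G : SimpleGraph V) (o : V) {r R : ℕ} (h : r ≤ R) :
    cball G o r ⊆ cball G o R := fun _ hv =>
  le_trans (show G.edist o _ ≤ (r : ℕ∞) from hv) (show (r : ℕ∞) ≤ R by exact_mod_cast h)

theorem closed_measure {ι : Type} (u : Set ι) (p : I) (T : Finset ι) (hT : ∀ e ∈ T, e ∈ u) :
    setBernoulli u p {ω | ∀ e ∈ T, e ∉ ω} = (toNNReal (σ p) : ℝ≥0∞) ^ T.card := by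
  rw [setBernoulli_apply']
  have : ((fun p : ι → Prop ↦ {i | p i}) ⁻¹' {ω : Set ι | ∀ e ∈ T, e ∉ ω}) =
      Set.pi (T : Set ι) (fun _ => ({False} : Set Prop)) := by
    ext f
    simp [Set.mem_pi]
  rw [this, Measure.infinitePi_pi _ (fun _ _ => MeasurableSet.of_discrete)]
  rw [Finset.prod_congr rfl (g := fun _ => (toNNReal (σ p) : ℝ≥0∞)), Finset.prod_const]
  intro e he
  simp [hT e he]

theorem closed_measurable {ι : Type} (T : Finset ι) :
    MeasurableSet {ω : Set ι | ∀ e ∈ T, e ∉ ω} := by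
  have : {ω : Set ι | ∀ e ∈ T, e ∉ ω} = ⋂ e ∈ T, {ω : Set ι | e ∉ ω} := by
    ext; simp
  rw [this]
  exact Finset.measurableSet_biInter T fun e _ => measurableSet_notMem e

theorem limsup_closed {ι : Type} (u : Set ι) (p : I) (hp : p ≠ 1) (E : ℕ → Finset ι) (M : ℕ)
    (hE : ∀ j, ∀ e ∈ E j, e ∈ u) (hM : ∀ j, (E j).card ≤ M)
    (hd : ∀ i j, i ≠ j → Disjoint (E i) (E j)) :
    setBernoulli u p (limsup (fun j => {ω : Set ι | ∀ e ∈ E j, e ∉ ω}) atTop) = 1 := by
  classical
  apply measure_limsup_eq_one (fun j => closed_measurable _)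
  · rw [iIndepSet_iff_meas_biInter (fun j => closed_measurable _)]
    intro s
    have : (⋂ i ∈ s, {ω : Set ι | ∀ e ∈ E i, e ∉ ω}) = {ω : Set ι | ∀ e ∈ s.biUnion E, e ∉ ω} := by
      ext ω
      simp only [Set.mem_iInter, Set.mem_ofPred_eq, Finset.mem_biUnion]
      constructor
      · rintro h e ⟨i, hi, he⟩
        exact h i hi e he
      · intro h i hi e he
        exact h e ⟨i, hi, he⟩
    rw [this, closed_measure u p _ (by
      intro e he
      obtain ⟨i, -, he⟩ := Finset.mem_biUnion.1 he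
      exact hE i e he), Finset.card_biUnion (fun i _ j _ hij => hd i j hij),
      ← Finset.prod_pow_eq_pow_sum]
    exact Finset.prod_congr rfl fun i _ => (closed_measure u p _ (hE i)).symm
  · have hq : (toNNReal (σ p) : ℝ≥0∞) ≠ 0 := by
      intro h
      apply hp
      have h1 : toNNReal (σ p) = 0 := by exact_mod_cast h
      have h2 : ((σ p : I) : ℝ) = 0 := by
        have := congrArg (fun x : NNReal => (x : ℝ)) h1
        simpa using this
      ext
      simp only [coe_symm_eq] at h2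
      rw [Set.Icc.coe_one]; linarith
    have hq1 : (toNNReal (σ p) : ℝ≥0∞) ≤ 1 := by
      have : toNNReal (σ p) ≤ 1 := by
        rw [← NNReal.coe_le_coe]
        simpa using p.2.1
      exact_mod_cast this
    rw [eq_top_iff, ← ENNReal.tsum_const_eq_top_of_ne_zero (α := ℕ) (pow_ne_zero M hq)]
    refine ENNReal.tsum_le_tsum fun j => ?_
    rw [closed_measure u p _ (hE j)]
    exact pow_le_pow_of_le_one zero_le hq1 (hM j)

theorem infCluster_null (X : RGraph) (hc : X.G.Preconnected) (M : ℕ)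
    (h : ∀ r, ∃ R, Good M r R X) (p : I) (hp : p ≠ 1) :
    setBernoulli X.G.edgeSet p (InfCluster X.V) = 0 := by
  classical
  choose R W h1 h2 h3 h4 using h
  let ρ : ℕ → ℕ := fun j => Nat.rec 0 (fun _ a => max (R a) a + 1) j
  have hρ : ∀ j, ρ (j + 1) = max (R (ρ j)) (ρ j) + 1 := fun j => rfl
  have hmono : StrictMono ρ := strictMono_nat_of_lt_succ fun j => by rw [hρ]; omega
  have hfin : ∀ j, (bdry X.G (W (ρ j))).Finite := fun j =>
    Set.finite_of_encard_le_coe (h4 _)
  let E : ℕ → Finset (Sym2 X.V) := fun j => (hfin j).toFinset.image fun q => s(q.1, q.2)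
  have hmem : ∀ v, ∀ᶠ j in atTop, v ∈ W (ρ j) := by
    intro v
    obtain ⟨n, hn⟩ := ENat.ne_top_iff_exists.1
      (SimpleGraph.edist_ne_top_iff_reachable.2 (hc X.root v))
    filter_upwards [eventually_ge_atTop n] with j hj
    apply h1
    show X.G.edist X.root v ≤ _
    rw [← hn]
    exact_mod_cast hj.trans (hmono.id_le j)
  have hcount : Countable X.V := by
    have : (Set.univ : Set X.V) ⊆ ⋃ j, W (ρ j) := fun v _ => by
      obtain ⟨j, hj⟩ := (hmem v).exists
      exact Set.mem_iUnion.2 ⟨j, hj⟩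
    exact Set.countable_univ_iff.1
      ((Set.countable_iUnion fun j => (h3 _).countable).mono this)
  have hE : ∀ j, ∀ e ∈ E j, e ∈ X.G.edgeSet := by
    intro j e he
    obtain ⟨q, hq, rfl⟩ := Finset.mem_image.1 he
    rw [Set.Finite.mem_toFinset] at hq
    exact hq.2.2
  have hM : ∀ j, (E j).card ≤ M := by
    intro j
    refine Finset.card_image_le.trans ?_
    have := h4 (ρ j)
    rw [Set.Finite.encard_eq_coe_toFinset_card (hfin j)] at this
    exact_mod_cast this
  have hlt : ∀ i j, i < j → Disjoint (E i) (E j) := by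
    intro i j hij
    rw [Finset.disjoint_left]
    intro e he he'
    obtain ⟨q, hq, rfl⟩ := Finset.mem_image.1 he
    obtain ⟨q', hq', hqq⟩ := Finset.mem_image.1 he'
    rw [Set.Finite.mem_toFinset] at hq hq'
    have hle : R (ρ i) + 1 ≤ ρ j := by
      have := hmono.monotone (Nat.succ_le_of_lt hij)
      rw [hρ] at this; omega
    have ha : X.G.edist X.root q.1 ≤ R (ρ i) := h2 _ hq.1
    have hb : X.G.edist X.root q.2 ≤ (R (ρ i) + 1 : ℕ) := by
      refine (SimpleGraph.edist_triangle (v := q.1)).trans ?_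
      rw [SimpleGraph.edist_eq_one_iff_adj.2 hq.2.2]
      push_cast
      gcongr
    have ha' : q.1 ∈ W (ρ j) := h1 _ (cball_mono _ _ (by omega) ha)
    have hb' : q.2 ∈ W (ρ j) := h1 _ (cball_mono _ _ hle hb)
    rcases Sym2.eq_iff.1 hqq with ⟨-, h⟩ | ⟨-, h⟩
    · exact hq'.2.1 (h ▸ hb')
    · exact hq'.2.1 (h ▸ ha')
  have hd : ∀ i j, i ≠ j → Disjoint (E i) (E j) := fun i j hij => by
    rcases lt_or_gt_of_ne hij with h | h
    · exact hlt i j h
    · exact (hlt j i h).symm
  have hlim := limsup_closed X.G.edgeSet p hp E M hE hM hd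
  have hmeas : MeasurableSet (limsup (fun j => {ω : Set (Sym2 X.V) | ∀ e ∈ E j, e ∉ ω}) atTop) :=
    MeasurableSet.measurableSet_limsup fun j => closed_measurable _
  have hae : ∀ᵐ ω ∂(setBernoulli X.G.edgeSet p),
      ω ∈ limsup (fun j => {ω : Set (Sym2 X.V) | ∀ e ∈ E j, e ∉ ω}) atTop :=
    (prob_compl_eq_zero_iff hmeas).2 hlim
  have hsub := setBernoulli_ae_subset (u := X.G.edgeSet) (p := p)
  rw [← compl_mem_ae_iff]
  filter_upwards [hae, hsub] with ω hω hωs
  rintro ⟨v, hv⟩
  rw [mem_limsup_iff_frequently_mem] at hω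
  obtain ⟨j, hj1, hj2⟩ := (hω.and_eventually (hmem v)).exists
  apply hv
  refine (h3 (ρ j)).subset ?_
  rintro w ⟨q⟩
  have key : ∀ (a b : X.V) (q : (SimpleGraph.fromEdgeSet ω).Walk a b), a ∈ W (ρ j) →
      b ∈ W (ρ j) := by
    intro a b q
    induction q with
    | nil => exact id
    | @cons a c b hac q ih =>
      intro ha
      apply ih
      by_contra hc'
      rw [SimpleGraph.fromEdgeSet_adj] at hac
      refine hj1 s(a, c) ?_ hac.1
      refine Finset.mem_image.2 ⟨(a, c), ?_, rfl⟩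
      rw [Set.Finite.mem_toFinset]
      exact ⟨ha, hc', hωs hac.1⟩
  exact key _ _ q hj2

theorem pc_eq_one (X : RGraph) (hc : X.G.Preconnected) (M : ℕ)
    (h : ∀ r, ∃ R, Good M r R X) : pc X.G = 1 := by
  unfold pc
  apply le_antisymm le_one'
  refine le_sInf fun p hp => ?_
  by_contra hne
  have : p ≠ 1 := fun h' => hne (h' ▸ le_rfl)
  rw [Set.mem_ofPred_eq, infCluster_null X hc M h p this] at hp
  exact lt_irrefl _ hp

end Pool.Agent.Lib.MP_ac3f41_pr
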