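import Mathlib
import Pool.Agent.Lib.MP_ac3f41_pr.Perc

/-!
Passing the cutset property to local limits.
-/

namespace Pool.Agent.Lib.MP_ac3f41_pr

open MeasureTheory ProbabilityTheory Filter Topology SimpleGraph

theorem edist_hom_le {V V' : Type} {G : SimpleGraph V} {G' : SimpleGraph V'} (f : G →g G')
    (a b : V) : G'.edist (f a) (f b) ≤ G.edist a b := by
  by_cases h : G.edist a b = ⊤
  · rw [h]; exact le_top
  · obtain ⟨p, hp⟩ := exists_walk_of_edist_ne_top h
    rw [← hp, ← Walk.length_map f p]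
    exact edist_le _

theorem edist_iso {V V' : Type} {G : SimpleGraph V} {G' : SimpleGraph V'} (e : G ≃g G')
    (a b : V) : G'.edist (e a) (e b) = G.edist a b := by
  apply le_antisymm (edist_hom_le e.toHom a b)
  have := edist_hom_le e.symm.toHom (e a) (e b)
  simpa using this

theorem support_between {V : Type} {G : SimpleGraph V} {a b q : V} (p : G.Walk a b)
    (hp : (p.length : ℕ∞) = G.edist a b) (hq : q ∈ p.support) :
    G.edist a q + G.edist q b = G.edist a b := by
  apply le_antisymm _ SimpleGraph.edist_triangle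
  obtain ⟨p1, p2, rfl⟩ := Walk.mem_support_iff_exists_append.1 hq
  rw [← hp, Walk.length_append]
  push_cast
  exact add_le_add (edist_le p1) (edist_le p2)

theorem edist_induce_le {V : Type} {G : SimpleGraph V} (U : Set V) {a b : V} (ha : a ∈ U)
    (hb : b ∈ U) (h : ∀ q, G.edist a q + G.edist q b = G.edist a b → q ∈ U) :
    (G.induce U).edist ⟨a, ha⟩ ⟨b, hb⟩ ≤ G.edist a b := by
  by_cases h' : G.edist a b = ⊤
  · rw [h']; exact le_top
  · obtain ⟨p, hp⟩ := exists_walk_of_edist_ne_top h'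
    have hs : ∀ q ∈ p.support, q ∈ U := fun q hq => h q (support_between p hp hq)
    have hl : (p.induce U hs).length = p.length := by
      have h1 := Walk.length_map (Embedding.induce U).toHom (p.induce U hs)
      rw [Walk.map_induce] at h1
      exact h1.symm
    rw [← hp, ← hl]
    exact edist_le _

theorem le_edist_induce {V : Type} {G : SimpleGraph V} (U : Set V) (a b : U) :
    G.edist a b ≤ (G.induce U).edist a b :=
  edist_hom_le (Embedding.induce U).toHom a b

theorem ball_edist (X : RGraph) (n : ℕ) (v : (X.ball n).V) :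
    (X.ball n).G.edist (X.ball n).root v = X.G.edist X.root v.1 := by
  apply le_antisymm _ (le_edist_induce _ (X.ball n).root v)
  refine edist_induce_le (cball X.G X.root n) (self_mem_cball _ _ _) v.2 fun q hq => ?_
  have : X.G.edist X.root q ≤ X.G.edist X.root v.1 := by rw [← hq]; exact le_self_add
  exact this.trans v.2

theorem RGraph.Iso.refl (X : RGraph) : X.Iso X := ⟨RelIso.refl _, rfl⟩

theorem RGraph.Iso.symm {X Y : RGraph} (h : X.Iso Y) : Y.Iso X := by
  obtain ⟨e, he⟩ := h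
  exact ⟨e.symm, by rw [← he]; simp⟩

theorem RGraph.Iso.trans {X Y Z : RGraph} (h : X.Iso Y) (h' : Y.Iso Z) : X.Iso Z := by
  obtain ⟨e, he⟩ := h
  obtain ⟨e', he'⟩ := h'
  exact ⟨e.trans e', by rw [← he', ← he]; rfl⟩

theorem Good.iso {M r R : ℕ} {X Y : RGraph} (h : Good M r R X) (hi : X.Iso Y) : Good M r R Y := by
  obtain ⟨e, he⟩ := hi
  obtain ⟨W, h1, h2, h3, h4⟩ := h
  refine ⟨e '' W, ?_, ?_, h3.image _, ?_⟩
  · intro y hy
    refine ⟨e.symm y, h1 ?_, by simp⟩
    show X.G.edist X.root (e.symm y) ≤ _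
    rw [← edist_iso e, he, RelIso.apply_symm_apply]
    exact hy
  · rintro _ ⟨x, hx, rfl⟩
    show Y.G.edist Y.root (e x) ≤ _
    rw [← he, edist_iso e]
    exact h2 hx
  · refine le_trans (Set.encard_le_encard (t := (Prod.map e e) '' bdry X.G W) ?_)
      ((Set.encard_image_le _ _).trans h4)
    rintro ⟨a, b⟩ ⟨⟨x, hx, rfl⟩, hb, hab⟩
    refine ⟨(x, e.symm b), ⟨hx, fun hc => hb ⟨_, hc, by simp⟩, ?_⟩, by simp⟩
    rw [← e.map_adj_iff]
    simpa using hab

theorem Good.to_ball {M r R : ℕ} {X : RGraph} (h : Good M r R X) : Good M r R (X.ball (R + 1)) := by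
  obtain ⟨W, h1, h2, h3, h4⟩ := h
  refine ⟨Subtype.val ⁻¹' W, ?_, ?_, h3.preimage Subtype.val_injective.injOn, ?_⟩
  · intro y hy
    apply h1
    show X.G.edist X.root y.1 ≤ _
    rw [← ball_edist]; exact hy
  · intro y hy
    show (X.ball (R + 1)).G.edist _ y ≤ _
    rw [ball_edist]; exact h2 hy
  · refine le_trans ?_ h4
    refine Set.encard_le_encard_of_injOn (f := Prod.map Subtype.val Subtype.val) ?_
      (Subtype.val_injective.prodMap Subtype.val_injective).injOn
    rintro ⟨a, b⟩ ⟨ha, hb, hab⟩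
    exact ⟨ha, hb, hab⟩

theorem Good.of_ball {M r R : ℕ} {X : RGraph} (hr : r ≤ R) (h : Good M r R (X.ball (R + 1))) :
    Good M r R X := by
  obtain ⟨W, h1, h2, h3, h4⟩ := h
  refine ⟨Subtype.val '' W, ?_, ?_, h3.image _, ?_⟩
  · intro y hy
    refine ⟨⟨y, cball_mono _ _ (by omega) hy⟩, h1 ?_, rfl⟩
    show (X.ball (R + 1)).G.edist _ _ ≤ _
    rw [ball_edist]; exact hy
  · rintro _ ⟨y, hy, rfl⟩
    show X.G.edist X.root y.1 ≤ _
    rw [← ball_edist]; exact h2 hy
  · refine le_trans (Set.encard_le_encard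
      (t := (Prod.map Subtype.val Subtype.val) '' bdry (X.ball (R + 1)).G W) ?_)
      ((Set.encard_image_le _ _).trans h4)
    rintro ⟨a, b⟩ ⟨⟨x, hx, rfl⟩, hb, hab⟩
    have hx' : X.G.edist X.root x.1 ≤ R := by rw [← ball_edist]; exact h2 hx
    have hb' : b ∈ cball X.G X.root (R + 1) := by
      show X.G.edist X.root b ≤ _
      refine (SimpleGraph.edist_triangle (v := x.1)).trans ?_
      rw [SimpleGraph.edist_eq_one_iff_adj.2 hab]
      push_cast
      gcongr
    exact ⟨(x, ⟨b, hb'⟩), ⟨hx, fun hc => hb ⟨_, hc, rfl⟩, hab⟩, rfl⟩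

theorem Good.transfer {M r R : ℕ} {X Y : RGraph} (hr : r ≤ R) (h : Good M r R X)
    (hi : (X.ball (R + 1)).Iso (Y.ball (R + 1))) : Good M r R Y :=
  (h.to_ball.iso hi).of_ball hr

/-- the finite family of model rooted graphs with at most `N` vertices -/
abbrev Model (N : ℕ) : Type := Σ m : Fin (N + 1), SimpleGraph (Fin m) × Fin m

/-- the rooted graph of a model -/
def Model.toR {N : ℕ} (i : Model N) : RGraph := ⟨Fin i.1, i.2.1, i.2.2⟩

theorem exists_model (N : ℕ) (X : RGraph) [Finite X.V] (h : Nat.card X.V ≤ N) :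
    ∃ i : Model N, X.Iso i.toR := by
  let e := Finite.equivFin X.V
  exact ⟨⟨⟨Nat.card X.V, by omega⟩, X.G.map e.toEmbedding, e X.root⟩, ⟨Iso.map e X.G, rfl⟩⟩

/-- isomorphism of models -/
def modelSetoid (N : ℕ) : Setoid (Model N) :=
  ⟨fun i j => i.toR.Iso j.toR, ⟨fun _ => RGraph.Iso.refl _, RGraph.Iso.symm, RGraph.Iso.trans⟩⟩

theorem limit_good {Ω : Type*} [MeasurableSpace Ω] (P : Measure Ω) [IsProbabilityMeasure P]
    (H : Ω → RGraph) (V : ℕ → Type) (G : ∀ k, SimpleGraph (V k)) [∀ k, Finite (V k)]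
    [∀ k, Nonempty (V k)]
    (hL : IsLocalLimit P H V G) (M r R N : ℕ) (hr : r ≤ R)
    (hN : ∀ k v, Nat.card (cball (G k) v (R + 1)) ≤ N) (ε : ℝ)
    (h : ∀ᶠ k in atTop, (Nat.card {v : V k // ¬ Good M r R ⟨V k, G k, v⟩} : ℝ) ≤
      ε * Nat.card (V k)) :
    P.real {ω | ¬ Good M r R (H ω)} ≤ ε := by
  classical
  let Q := Quotient (modelSetoid N)
  have : Finite Q := Quotient.finite _
  have : Fintype Q := Fintype.ofFinite _
  let T : Finset Q := Finset.univ.filter fun q => Good M r R (Quotient.out q).toR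
  let Ev : Q → Set Ω := fun q => {ω | ((H ω).ball (R + 1)).Iso (Quotient.out q).toR}
  have hfin : ∀ q : Q, Finite (Quotient.out q).toR.V := fun q =>
    inferInstanceAs (Finite (Fin _))
  have hmeas : ∀ q, MeasurableSet (Ev q) := fun q => (hL (R + 1) _ (hfin q)).1
  have huniq : ∀ (X : RGraph) (q q' : Q), X.Iso (Quotient.out q).toR →
      X.Iso (Quotient.out q').toR → q = q' := by
    intro X q q' h1 h2
    rw [← Quotient.out_eq q, ← Quotient.out_eq q']
    exact Quotient.sound (h1.symm.trans h2)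
  have hdisj : Set.PairwiseDisjoint (T : Set Q) Ev := by
    intro q _ q' _ hne
    rw [Function.onFun, Set.disjoint_left]
    intro ω h1 h2
    exact hne (huniq _ _ _ h1 h2)
  have hsum : P.real (⋃ q ∈ T, Ev q) = ∑ q ∈ T, P.real (Ev q) :=
    measureReal_biUnion_finset hdisj (fun q _ => hmeas q)
  have hlim := tendsto_finsetSum T fun q _ => (hL (R + 1) _ (hfin q)).2
  have hge : 1 - ε ≤ ∑ q ∈ T, P.real (Ev q) := by
    refine ge_of_tendsto hlim ?_
    filter_upwards [h] with k hk
    have : Fintype (V k) := Fintype.ofFinite _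
    have hpos : (0 : ℝ) < Nat.card (V k) := by exact_mod_cast Nat.card_pos
    rw [← Finset.sum_div, le_div_iff₀ hpos]
    have h1 : Nat.card (V k) ≤ Nat.card {v : V k // ¬ Good M r R ⟨V k, G k, v⟩} +
        ∑ q ∈ T, Nat.card {v : V k //
          ((RGraph.mk (V k) (G k) v).ball (R + 1)).Iso (Quotient.out q).toR} := by
      simp only [Nat.card_eq_fintype_card, Fintype.card_subtype]
      refine le_trans ?_ (add_le_add le_rfl Finset.card_biUnion_le)
      refine le_trans ?_ (Finset.card_union_le _ _)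
      apply Finset.card_le_card
      intro v _
      rw [Finset.mem_union]
      by_cases hv : Good M r R ⟨V k, G k, v⟩
      · right
        have : Finite ((RGraph.mk (V k) (G k) v).ball (R + 1)).V :=
          inferInstanceAs (Finite (cball (G k) v (R + 1)))
        obtain ⟨i, hi⟩ := exists_model N ((RGraph.mk (V k) (G k) v).ball (R + 1)) (hN k v)
        have hq : i.toR.Iso (Quotient.out (Quotient.mk (modelSetoid N) i)).toR :=
          (Quotient.mk_out (s := modelSetoid N) i).symm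
        refine Finset.mem_biUnion.2 ⟨Quotient.mk _ i, ?_, ?_⟩
        · exact Finset.mem_filter.2 ⟨Finset.mem_univ _, hv.to_ball.iso (hi.trans hq)⟩
        · exact Finset.mem_filter.2 ⟨Finset.mem_univ _, hi.trans hq⟩
      · left
        exact Finset.mem_filter.2 ⟨Finset.mem_univ _, hv⟩
    have h2 : (Nat.card (V k) : ℝ) ≤ Nat.card {v : V k // ¬ Good M r R ⟨V k, G k, v⟩} +
        ∑ q ∈ T, (Nat.card {v : V k //
          ((RGraph.mk (V k) (G k) v).ball (R + 1)).Iso (Quotient.out q).toR} : ℝ) := by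
      exact_mod_cast h1
    linarith
  have hsub : {ω | ¬ Good M r R (H ω)} ⊆ (⋃ q ∈ T, Ev q)ᶜ := by
    intro ω hω hc
    obtain ⟨q, hq, hq'⟩ := Set.mem_iUnion₂.1 hc
    exact hω (((Finset.mem_filter.1 hq).2.iso hq'.symm).of_ball hr)
  refine (measureReal_mono hsub).trans ?_
  rw [measureReal_compl (Finset.measurableSet_biUnion T fun q _ => hmeas q), hsum]
  simp only [probReal_univ]
  linarith

theorem limit_pc {Ω : Type*} [MeasurableSpace Ω] (P : Measure Ω) [IsProbabilityMeasure P]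
    (H : Ω → RGraph) (hH : ∀ ω, (H ω).G.Preconnected)
    (V : ℕ → Type) (G : ∀ k, SimpleGraph (V k)) [∀ k, Finite (V k)] [∀ k, Nonempty (V k)]
    (hL : IsLocalLimit P H V G) (M : ℕ) (N : ℕ → ℕ)
    (hN : ∀ R k v, Nat.card (cball (G k) v R) ≤ N R)
    (h : ∀ (r : ℕ) (ε : ℝ), 0 < ε → ∃ R, r ≤ R ∧ ∀ᶠ k in atTop,
      (Nat.card {v : V k // ¬ Good M r R ⟨V k, G k, v⟩} : ℝ) ≤ ε * Nat.card (V k)) :
    ∀ᵐ ω ∂P, pc (H ω).G = 1 := by
  have key : ∀ r, ∀ᵐ ω ∂P, ∃ R, Good M r R (H ω) := by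
    intro r
    rw [ae_iff, ← measureReal_eq_zero_iff]
    apply le_antisymm _ measureReal_nonneg
    refine le_of_forall_pos_le_add fun ε hε => ?_
    obtain ⟨R, hr, hR⟩ := h r ε hε
    rw [zero_add]
    refine le_trans (measureReal_mono ?_)
      (limit_good P H V G hL M r R (N (R + 1)) hr (hN _) ε hR)
    intro ω hω hc
    exact hω ⟨R, hc⟩
  filter_upwards [ae_all_iff.2 key] with ω hω
  exact pc_eq_one _ (hH ω) M hω

end Pool.Agent.Lib.MP_ac3f41_pr
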