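import Mathlib
import Pool.Agent.Lib.MP_ac3f41_pr.Count
import Pool.Agent.Lib.MP_ac3f41_pr.Limit

/-!
Cayley graphs with infinitely many ends.
-/

namespace Pool.Agent.Lib.MP_ac3f41_pr

open Filter SimpleGraph MeasureTheory

variable {Γ : Type} [Group Γ]

/-- left multiplication is an automorphism of the Cayley graph -/
def leftIso (S : Set Γ) (g : Γ) : mulCayley S ≃g mulCayley S where
  toEquiv := Equiv.mulLeft g
  map_rel_iff' := mulCayley_adj_mul_iff_right

theorem cayley_connected (S : Set Γ) (hS : Subgroup.closure S = ⊤) : (mulCayley S).Connected := by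
  have key : ∀ g, (mulCayley S).Reachable 1 g := by
    intro g
    have hg : g ∈ Subgroup.closure S := hS ▸ Subgroup.mem_top g
    induction hg using Subgroup.closure_induction with
    | mem x hx =>
      by_cases h : (1 : Γ) = x
      · rw [← h]
      · exact Adj.reachable ((mulCayley_adj S 1 x).2 ⟨h, Or.inl (by simpa using hx)⟩)
    | one => rfl
    | mul x y _ _ hx hy =>
      have := hy.map (leftIso S x).toHom
      refine hx.trans ?_
      have e1 : (leftIso S x).toHom 1 = x := mul_one x
      rw [e1] at this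
      exact this
    | inv x _ hx =>
      have := hx.map (leftIso S x⁻¹).toHom
      have e1 : (leftIso S x⁻¹).toHom 1 = x⁻¹ := mul_one _
      have e2 : (leftIso S x⁻¹).toHom x = 1 := inv_mul_cancel _
      rw [e1, e2] at this
      exact this.symm
  exact (connected_iff_exists_forall_reachable _).2 ⟨1, key⟩

theorem dist_eq_edist {V : Type} {G : SimpleGraph V} (h : G.Connected) (x y : V) :
    (G.dist x y : ℕ∞) = G.edist x y := (h.preconnected x y).coe_dist_eq_edist

theorem cayley_dist_mul (S : Set Γ) (g x y : Γ) :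
    (mulCayley S).dist (g * x) (g * y) = (mulCayley S).dist x y := by
  unfold SimpleGraph.dist
  exact congrArg _ (edist_iso (leftIso S g) x y)

theorem exists_between {V : Type} {G : SimpleGraph V} (h : G.Connected) (x y : V) (s : ℕ)
    (hs : s ≤ G.dist x y) : ∃ z, G.dist x z + s = G.dist x y ∧ G.dist z y = s := by
  obtain ⟨p, hp⟩ := h.exists_walk_length_eq_dist x y
  have h1 := dist_le (p.take (p.length - s))
  have h2 := dist_le (p.drop (p.length - s))
  rw [Walk.take_length] at h1
  rw [Walk.drop_length] at h2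
  have h3 := h.dist_triangle (u := x) (v := p.getVert (p.length - s)) (w := y)
  exact ⟨p.getVert (p.length - s), by omega, by omega⟩

theorem cayley_fin (S : Set Γ) (hfin : S.Finite) (hS : Subgroup.closure S = ⊤) (n : ℕ) :
    {g | (mulCayley S).dist 1 g ≤ n}.Finite := by
  have hc := cayley_connected S hS
  induction n with
  | zero =>
    refine (Set.finite_singleton (1 : Γ)).subset fun g hg => ?_
    have : (mulCayley S).dist 1 g = 0 := Nat.le_zero.1 hg
    exact (hc.dist_eq_zero_iff.1 this).symm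
  | succ n ih =>
    refine (ih.union (ih.image2 (· * ·) (hfin.union hfin.inv))).subset fun g hg => ?_
    by_cases h : (mulCayley S).dist 1 g ≤ n
    · exact Or.inl h
    · have hg' : (mulCayley S).dist 1 g ≤ n + 1 := hg
      obtain ⟨z, hz, hz'⟩ := exists_between hc 1 g 1 (by omega)
      rw [dist_eq_one_iff_adj, mulCayley_adj] at hz'
      refine Or.inr ⟨z, show (mulCayley S).dist 1 z ≤ n by omega, z⁻¹ * g, ?_, by simp⟩
      rcases hz'.2 with h | h
      · exact Or.inl h
      · exact Or.inr (by simpa using h)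

/-- connected by a walk avoiding `K` -/
def Con {V : Type} (G : SimpleGraph V) (K : Set V) (x y : V) : Prop :=
  ∃ p : G.Walk x y, ∀ q ∈ p.support, q ∉ K

theorem Con.symm {V : Type} {G : SimpleGraph V} {K : Set V} {x y : V} (h : Con G K x y) :
    Con G K y x := by
  obtain ⟨p, hp⟩ := h
  exact ⟨p.reverse, fun q hq => hp q (by simpa using hq)⟩

theorem Con.trans {V : Type} {G : SimpleGraph V} {K : Set V} {x y z : V} (h : Con G K x y)
    (h' : Con G K y z) : Con G K x z := by
  obtain ⟨p, hp⟩ := h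
  obtain ⟨p', hp'⟩ := h'
  refine ⟨p.append p', fun q hq => ?_⟩
  rcases (Walk.mem_support_append_iff _ _).1 hq with h | h
  · exact hp q h
  · exact hp' q h

theorem Con.step {V : Type} {G : SimpleGraph V} {K : Set V} {x y z : V} (h : Con G K y z)
    (hx : x ∉ K) (hxy : G.Adj x y) : Con G K x z := by
  obtain ⟨p, hp⟩ := h
  refine ⟨p.cons hxy, fun q hq => ?_⟩
  rw [Walk.support_cons, List.mem_cons] at hq
  rcases hq with rfl | h
  · exact hx
  · exact hp q h

theorem exists_setup (S : Set Γ) (hfin : S.Finite) (hS : Subgroup.closure S = ⊤)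
    (hE : InfinitelyManyEnds (mulCayley S)) :
    ∃ (T : Setup Γ) (K : Finset Γ), T.d = (mulCayley S).dist ∧ T.c = Con (mulCayley S) K := by
  have hc := cayley_connected S hS
  obtain ⟨K, hK⟩ := hE
  obtain ⟨t, ht, ht3⟩ := Set.exists_subset_encard_eq hK
  obtain ⟨C0, C1, C2, h01, h02, h12, rfl⟩ := Set.encard_eq_three.1 ht3
  let C : Fin 3 → (mulCayley S).ComponentCompl (K : Set Γ) := ![C0, C1, C2]
  have hCinf : ∀ i, (C i).supp.Infinite := by
    intro i
    fin_cases i
    · exact ht (show C0 ∈ _ by simp)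
    · exact ht (show C1 ∈ _ by simp)
    · exact ht (show C2 ∈ _ by simp)
  have hCne : ∀ i j, i ≠ j → C i ≠ C j := by
    intro i j hij
    fin_cases i <;> fin_cases j <;> simp_all [C, Ne.symm]
  let D := K.sup fun k => (mulCayley S).dist 1 k
  have hD : ∀ k ∈ K, (mulCayley S).dist 1 k ≤ D := fun k hk =>
    Finset.le_sup (f := fun k => (mulCayley S).dist 1 k) hk
  have ha : ∀ i, ∃ a ∈ (C i).supp, 2 * D < (mulCayley S).dist 1 a := by
    intro i
    obtain ⟨a, ha, ha'⟩ := ((hCinf i).sdiff (cayley_fin S hfin hS (2 * D))).nonempty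
    exact ⟨a, ha, not_le.1 ha'⟩
  choose a ha1 ha2 using ha
  refine ⟨⟨(mulCayley S).dist, Con (mulCayley S) K, D, a, fun _ => dist_self,
    fun _ _ => dist_comm, fun _ _ _ => hc.dist_triangle, cayley_dist_mul S, Con.symm, Con.trans,
    ?_, exists_between hc, cayley_fin S hfin hS, ha2, ?_⟩, K, rfl, rfl⟩
  · intro x y h
    obtain ⟨p, hp⟩ := hc.exists_walk_length_eq_dist x y
    by_contra hcon
    apply h
    refine ⟨p, fun q hq hqK => hcon ⟨q, hD q hqK, ?_⟩⟩
    have := support_between p (by rw [hp, dist_eq_edist hc]) hq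
    rw [← dist_eq_edist hc, ← dist_eq_edist hc, ← dist_eq_edist hc] at this
    exact_mod_cast this
  · rintro i j hij ⟨p, hp⟩
    obtain ⟨hi, hi'⟩ := ha1 i
    obtain ⟨hj, hj'⟩ := ha1 j
    apply hCne i j hij
    rw [← hi', ← hj', ConnectedComponent.eq]
    exact ⟨p.induce (K : Set Γ)ᶜ hp⟩

theorem mem_cball_iff {V : Type} {G : SimpleGraph V} (h : G.Connected) {o v : V} {n : ℕ} :
    v ∈ cball G o n ↔ G.dist o v ≤ n := by
  rw [cball, Set.mem_ofPred_eq, ← dist_eq_edist h]
  exact Nat.cast_le

theorem induce_le_dist {V : Type} {G : SimpleGraph V} (h : G.Connected) {o : V} {n : ℕ}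
    (a b : cball G o n) (hab : ∀ q, G.dist a q + G.dist q b = G.dist a b → G.dist o q ≤ n) :
    (G.induce (cball G o n)).edist a b ≤ G.dist a b := by
  rw [dist_eq_edist h]
  refine edist_induce_le _ a.2 b.2 fun q hq => (mem_cball_iff h).2 (hab q ?_)
  rw [← dist_eq_edist h, ← dist_eq_edist h, ← dist_eq_edist h] at hq
  exact_mod_cast hq

theorem good_of_cut (S : Set Γ) (hfin : S.Finite) (hS : Subgroup.closure S = ⊤)
    (T : Setup Γ) (K : Finset Γ) (hd : T.d = (mulCayley S).dist)
    (hT : T.c = Con (mulCayley S) K) (o : Γ) (n r R : ℕ) (v : cball (mulCayley S) o n) (x : Γ)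
    (h1 : n ≤ T.d o v + R) (h2 : ¬ T.c (x⁻¹ * o) (x⁻¹ * v)) (h3 : r + 3 * T.D + 1 ≤ T.d x v)
    (h4 : T.d x v ≤ R) :
    Good (K.card * (hfin.union hfin.inv).toFinset.card) r (3 * R + 4 * T.D)
      ⟨cball (mulCayley S) o n, (mulCayley S).induce (cball (mulCayley S) o n), v⟩ := by
  classical
  have hc := cayley_connected S hS
  have hmem : ∀ {w : Γ}, w ∈ cball (mulCayley S) o n ↔ T.d o w ≤ n := by
    intro w; rw [hd]; exact mem_cball_iff hc
  have hind : ∀ (a b : cball (mulCayley S) o n),
      (∀ q, T.d a q + T.d q b = T.d a b → T.d o q ≤ n) →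
      ((mulCayley S).induce (cball (mulCayley S) o n)).edist a b ≤ T.d a b := by
    rw [hd]; exact induce_le_dist hc
  have hv := hmem.1 v.2
  refine ⟨{w : cball (mulCayley S) o n | T.c (x⁻¹ * w) (x⁻¹ * v)}, ?_, ?_, ?_, ?_⟩
  · intro w hw
    have hw' : T.d v w ≤ r := by
      have := (le_edist_induce _ v w).trans hw
      rw [← dist_eq_edist hc, ← hd] at this
      exact_mod_cast this
    by_contra hcon
    obtain ⟨k, hk, hk'⟩ := T.sepAt hcon
    have := T.d_tri x k v
    have := T.d_comm v w
    omega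
  · intro w hw
    have hw0 := hmem.1 w.2
    have hw' : ¬ T.c (x⁻¹ * o) (x⁻¹ * w) := fun h => h2 (T.c_trans h hw)
    obtain ⟨k, hk, hk'⟩ := T.sepAt hw'
    obtain ⟨k', hl, hl'⟩ := T.sepAt h2
    have t1 := T.d_tri x k' v
    have t2 := T.d_tri o k' x
    have t3 := T.d_comm k' x
    have t4 := T.d_tri k' x v
    have t5 := T.d_tri o k x
    have t6 := T.d_comm k x
    have t7 := T.d_tri o x v
    have t8 := T.d_tri o x k
    let K' : cball (mulCayley S) o n := ⟨k', hmem.2 (by omega)⟩
    let X : cball (mulCayley S) o n := ⟨x, hmem.2 (by omega)⟩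
    let K0 : cball (mulCayley S) o n := ⟨k, hmem.2 (by omega)⟩
    have e1 := hind v K' (by
      intro q hq
      change T.d v q + T.d q k' = T.d v k' at hq
      have := T.d_tri o k' q
      have := T.d_comm k' q
      have := T.d_comm v k'
      omega)
    have e2 := hind K' X (by
      intro q hq
      change T.d k' q + T.d q x = T.d k' x at hq
      have := T.d_tri o k' q
      omega)
    have e3 := hind X K0 (by
      intro q hq
      change T.d x q + T.d q k = T.d x k at hq
      have := T.d_tri o x q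
      omega)
    have e4 := hind K0 w (by
      intro q hq
      change T.d k q + T.d q w = T.d k w at hq
      have := T.d_tri o k q
      omega)
    change _ ≤ ((T.d v k' : ℕ) : ℕ∞) at e1
    change _ ≤ ((T.d k' x : ℕ) : ℕ∞) at e2
    change _ ≤ ((T.d x k : ℕ) : ℕ∞) at e3
    change _ ≤ ((T.d k w : ℕ) : ℕ∞) at e4
    show ((mulCayley S).induce (cball (mulCayley S) o n)).edist v w ≤ _
    have t9 := T.d_comm v k'
    calc ((mulCayley S).induce (cball (mulCayley S) o n)).edist v w
        ≤ _ + (_ + (_ + _)) := (SimpleGraph.edist_triangle (v := K')).trans (add_le_add le_rfl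
          ((SimpleGraph.edist_triangle (v := X)).trans (add_le_add le_rfl
            (SimpleGraph.edist_triangle (v := K0)))))
      _ ≤ ((T.d v k' : ℕ) : ℕ∞) + ((T.d k' x : ℕ) + ((T.d x k : ℕ) + (T.d k w : ℕ))) :=
          add_le_add e1 (add_le_add e2 (add_le_add e3 e4))
      _ ≤ ((3 * R + 4 * T.D : ℕ) : ℕ∞) := by
          have : T.d v k' + (T.d k' x + (T.d x k + T.d k w)) ≤ 3 * R + 4 * T.D := by omega
          exact_mod_cast this
  · have : Finite (cball (mulCayley S) o n) := by
      refine Set.Finite.to_subtype (((T.fin n).image (o * ·)).subset fun w hw => ?_)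
      exact ⟨o⁻¹ * w, by rw [Set.mem_ofPred_eq, ← T.d_eq]; exact hmem.1 hw, by simp⟩
    exact Set.toFinite _
  · rw [← Finset.card_product, ← Set.encard_coe_eq_coe_finsetCard]
    refine Set.encard_le_encard_of_injOn
      (f := fun p : cball (mulCayley S) o n × cball (mulCayley S) o n =>
        (x⁻¹ * p.2, (p.2 : Γ)⁻¹ * p.1)) ?_ ?_
    · rintro ⟨a, b⟩ ⟨ha, hb, hab⟩
      have hab' : (mulCayley S).Adj a b := hab
      simp only [Finset.coe_product, Set.mem_prod, Finset.mem_coe, Set.Finite.mem_toFinset]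
      constructor
      · by_contra hK
        apply hb
        change T.c (x⁻¹ * a) (x⁻¹ * v) at ha
        change T.c (x⁻¹ * b) (x⁻¹ * v)
        rw [hT] at ha ⊢
        exact ha.step hK (mulCayley_adj_mul_iff_right.2 hab'.symm)
      · rcases ((mulCayley_adj S _ _).1 hab').2 with h | h
        · exact Or.inr (by simpa using h)
        · exact Or.inl h
    · rintro ⟨a, b⟩ - ⟨a', b'⟩ - he
      simp only [Prod.mk.injEq, mul_right_inj] at he
      have hb : b = b' := Subtype.ext he.1
      subst hb
      have ha : a = a' := Subtype.ext (mul_left_cancel he.2)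
      rw [ha]

theorem main (S : Set Γ) (hfin : S.Finite) (hS : Subgroup.closure S = ⊤)
    (hE : InfinitelyManyEnds (mulCayley S)) (o : Γ) (n : ℕ → ℕ) (hn : Tendsto n atTop atTop)
    {Ω : Type*} [MeasurableSpace Ω] (P : Measure Ω) [IsProbabilityMeasure P]
    (H : Ω → RGraph) (hH : ∀ ω, (H ω).G.Preconnected)
    (hL : IsLocalLimit P H (fun k => cball (mulCayley S) o (n k))
      (fun k => (mulCayley S).induce (cball (mulCayley S) o (n k)))) :
    ∀ᵐ ω ∂P, pc (H ω).G = 1 := by
  classical
  obtain ⟨T, K, hd, hT⟩ := exists_setup S hfin hS hE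
  have hc := cayley_connected S hS
  have hmem : ∀ {o w : Γ} {n : ℕ}, w ∈ cball (mulCayley S) o n ↔ T.d o w ≤ n := by
    intro o w n; rw [hd]; exact mem_cball_iff hc
  let e : ∀ (o : Γ) (n : ℕ), cball (mulCayley S) o n ≃ T.B n := fun o n =>
    { toFun := fun w => ⟨o⁻¹ * w, T.mem_B.2 (by rw [← T.d_eq]; exact hmem.1 w.2)⟩
      invFun := fun w => ⟨o * w, hmem.2 (by
        rw [T.d_eq, inv_mul_cancel_left]; exact T.mem_B.1 w.2)⟩
      left_inv := fun w => by simp
      right_inv := fun w => by simp }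
  have hfinite : ∀ o n, Finite (cball (mulCayley S) o n) := fun o n => Finite.of_equiv _ (e o n).symm
  have hcard : ∀ o n, Nat.card (cball (mulCayley S) o n) = (T.B n).card := fun o n => by
    rw [Nat.card_congr (e o n)]; simp
  have : ∀ k, Nonempty (cball (mulCayley S) o (n k)) := fun k => ⟨⟨o, self_mem_cball _ _ _⟩⟩
  refine limit_pc P H hH _ _ hL (K.card * (hfin.union hfin.inv).toFinset.card)
    (fun R => (T.B R).card) ?_ ?_
  · intro R k v
    rw [← hcard v R]
    refine Nat.card_le_card_of_injective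
      (fun w => ⟨w.1.1, (le_edist_induce _ v w.1).trans w.2⟩) ?_
    intro w w' h
    exact Subtype.ext (Subtype.ext (Subtype.mk.inj h))
  · intro r ε hε
    obtain ⟨R, hR⟩ := T.most_cut (r + 3 * T.D + 1) ε hε
    refine ⟨3 * (R + r) + 4 * T.D, by omega, ?_⟩
    filter_upwards [hn.eventually hR] with k hk
    rw [hcard]
    refine le_trans ?_ hk
    rw [Nat.cast_le]
    refine le_trans ?_ (Nat.card_eq_finsetCard _).le
    refine Nat.card_le_card_of_injective (fun w => ⟨o⁻¹ * w.1.1, ?_⟩) ?_
    · rw [Finset.mem_filter]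
      refine ⟨(e o (n k) w.1).2, ?_⟩
      rintro ⟨h1, x, hx1, hx2, hx3⟩
      apply w.2
      have e1 : T.d (o * x) w.1.1 = T.d x (o⁻¹ * w.1.1) := by
        rw [← T.d_mul o x, mul_inv_cancel_left]
      refine good_of_cut S hfin hS T K hd hT o (n k) r (R + r) w.1 (o * x) ?_ ?_ ?_ ?_
      · rw [← T.d_eq] at h1; omega
      · rw [mul_inv_rev, mul_assoc, mul_assoc, inv_mul_cancel, mul_one]
        exact hx1
      · omega
      · omega
    · intro w w' h
      exact Subtype.ext (Subtype.ext (mul_left_cancel (Subtype.mk.inj h)))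

end Pool.Agent.Lib.MP_ac3f41_pr
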